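import Pool.Agent.helper90.TP.AS

/-!
Under the continuum hypothesis there is a totally paracompact space with a dense Hurewicz
subspace that is not Menger; it is moreover zero-dimensional, T3 and Lindelof.
-/

set_option autoImplicit false

namespace Pool.Agent.Results.MP_78ccb7_gt.ConsistentCounterexample

open Pool.Agent.helper90.TP

theorem result : Cardinal.aleph 1 = Cardinal.continuum →
    ∃ (X : Type) (_ : TopologicalSpace X), T3Space X ∧
      TopologicalSpace.IsTopologicalBasis {s : Set X | IsClopen s} ∧
      LindelofSpace X ∧ TotallyParacompact X ∧ ¬ MengerSpace X ∧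
      ∃ Y : Set X, Dense Y ∧ HurewiczSpace Y :=
  main

end Pool.Agent.Results.MP_78ccb7_gt.ConsistentCounterexample
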