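import Pool.Agent.helper33.TM.Card

/-!
Variant (a) of the question for countably tight spaces and dense subspaces of size less than
`bNumber` and at most `aleph m` for some natural number `m`.
-/

set_option autoImplicit false

namespace Pool.Agent.Results.MP_78ccb7_gt.CountablyTight

open Pool.Agent.helper90.TP Pool.Agent.helper33.TM Cardinal

theorem result (X : Type) [TopologicalSpace X] (hX : TotallyParacompact X)
    (hT : ∀ (A : Set X) (x : X), x ∈ closure A →
      ∃ C : Set X, C ⊆ A ∧ C.Countable ∧ x ∈ closure C)
    (Y : Set X) (hY : Dense Y) (hYL : LindelofSpace Y) (hb : #Y < bNumber)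
    (hw : ∃ m : ℕ, #Y ≤ aleph (m : Ordinal.{0})) : MengerSpace X :=
  tight_case hX Y hY (isLindelof_iff_LindelofSpace.2 hYL) hb hw hT

end Pool.Agent.Results.MP_78ccb7_gt.CountablyTight
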