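import Pool.Agent.helper33.TM.Good

/-!
A totally paracompact space with a dense Hurewicz subspace `Y` is Menger if every nonempty
G_delta set meets `Y` or the closure of one of fewer than `bNumber` countable sets.
-/

set_option autoImplicit false

namespace Pool.Agent.Results.MP_78ccb7_gt.GDeltaDense

open Pool.Agent.helper90.TP Pool.Agent.helper33.TM Cardinal

theorem result (X : Type) [TopologicalSpace X] (hX : TotallyParacompact X)
    (Y : Set X) (hY : Dense Y) (hYH : HurewiczSpace Y) (I : Type) (Z : I → Set X)
    (hI : #I < bNumber) (hZ : ∀ i, (Z i).Countable)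
    (hG : ∀ G : Set X, IsGδ G → G.Nonempty → (G ∩ (Y ∪ ⋃ i, closure (Z i))).Nonempty) :
    MengerSpace X :=
  gdelta_case hX Y hY hYH I hI Z hZ hG

end Pool.Agent.Results.MP_78ccb7_gt.GDeltaDense
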